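import Mathlib

/-!
# ST-ODD: the scalars of a trace function
-/

set_option autoImplicit false
set_option maxHeartbeats 400000

namespace Pool.Agent.J6H95.ST

section alg

variable {F : Type} [Field F] {G : Type*} [Group G]

/-- a positive number with bounded powers -/
theorem one_of_bdd {X C : ℝ} (hX : 0 < X) (h : ∀ j : ℤ, X ^ j ≤ C) : X = 1 := by
  rcases lt_trichotomy X 1 with h1 | h1 | h1
  · exfalso
    obtain ⟨n, hn⟩ := pow_unbounded_of_one_lt C ((one_lt_inv₀ hX).2 h1)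
    have h2 := h (-(n : ℤ))
    rw [zpow_neg, zpow_natCast, ← inv_pow] at h2
    exact absurd hn (not_lt.2 h2)
  · exact h1
  · exfalso
    obtain ⟨n, hn⟩ := pow_unbounded_of_one_lt C h1
    have h2 := h (n : ℤ)
    rw [zpow_natCast] at h2
    exact absurd hn (not_lt.2 h2)

/-- the scalar of `u` -/
noncomputable def rr (T : G → F) (x₁ u : G) : F := T (x₁ * u) / T x₁

variable {T : G → F} {x₁ : G} (hx₁ : T x₁ ≠ 0) {N : Subgroup G}
  (hN : ∀ u ∈ N, ∃ r : F, ∀ x, T (x * u) = r * T x)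
include hx₁ hN

theorem rr_spec {u : G} (hu : u ∈ N) (x : G) : T (x * u) = rr T x₁ u * T x := by
  obtain ⟨s, hs⟩ := hN u hu
  have h1 : rr T x₁ u = s := by
    unfold rr
    rw [hs x₁]
    field_simp
  rw [h1, hs]

theorem rr_mul {u u' : G} (hu : u ∈ N) (hu' : u' ∈ N) :
    rr T x₁ (u * u') = rr T x₁ u * rr T x₁ u' := by
  show T (x₁ * (u * u')) / T x₁ = _
  rw [← mul_assoc, rr_spec hx₁ hN hu', rr_spec hx₁ hN hu]
  field_simp

omit hN in
theorem rr_one : rr T x₁ 1 = 1 := by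
  unfold rr
  rw [mul_one, div_self hx₁]

theorem rr_ne {u : G} (hu : u ∈ N) : rr T x₁ u ≠ 0 := by
  intro h
  have h1 := rr_mul hx₁ hN hu (N.inv_mem hu)
  rw [mul_inv_cancel, rr_one hx₁, h, zero_mul] at h1
  exact one_ne_zero h1

theorem rr_inv {u : G} (hu : u ∈ N) : rr T x₁ u⁻¹ = (rr T x₁ u)⁻¹ := by
  apply eq_inv_of_mul_eq_one_left
  rw [← rr_mul hx₁ hN (N.inv_mem hu) hu, inv_mul_cancel, rr_one hx₁]

theorem rr_pow {u : G} (hu : u ∈ N) (j : ℕ) : rr T x₁ (u ^ j) = rr T x₁ u ^ j := by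
  induction j with
  | zero => rw [pow_zero, pow_zero, rr_one hx₁]
  | succ j ih => rw [pow_succ, pow_succ, rr_mul hx₁ hN (N.pow_mem hu j) hu, ih]

theorem rr_zpow {u : G} (hu : u ∈ N) (j : ℤ) : rr T x₁ (u ^ j) = rr T x₁ u ^ j := by
  obtain ⟨n, rfl | rfl⟩ := j.eq_nat_or_neg
  · rw [zpow_natCast, zpow_natCast, rr_pow hx₁ hN hu]
  · rw [zpow_neg, zpow_neg, zpow_natCast, zpow_natCast, rr_inv hx₁ hN (N.pow_mem hu n),
      rr_pow hx₁ hN hu]

theorem rr_conj (hcyc : ∀ x y, T (x * y) = T (y * x)) {u : G} (hu : u ∈ N) (y : G) :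
    rr T x₁ (y * u * y⁻¹) = rr T x₁ u := by
  have h1 : T (x₁ * (y * u * y⁻¹)) = T (y⁻¹ * x₁ * y * u) := by
    have h2 : x₁ * (y * u * y⁻¹) = (x₁ * y * u) * y⁻¹ := by group
    rw [h2, hcyc]
    congr 1
    group
  have h3 : T (y⁻¹ * x₁ * y) = T x₁ := by
    rw [hcyc]
    congr 1
    group
  unfold rr
  rw [h1, rr_spec hx₁ hN hu, h3]
  unfold rr
  field_simp

/-- the powers of `x₁ u` -/
theorem rr_prod [hNn : N.Normal] (hcyc : ∀ x y, T (x * y) = T (y * x)) {u : G} (hu : u ∈ N)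
    (n : ℕ) : ∃ c ∈ N, (x₁ * u) ^ n = x₁ ^ n * c ∧ rr T x₁ c = rr T x₁ u ^ n := by
  induction n with
  | zero => exact ⟨1, N.one_mem, by simp, by rw [pow_zero, rr_one hx₁]⟩
  | succ n ih =>
    obtain ⟨c, hc, h1, h2⟩ := ih
    have h3 : x₁⁻¹ * c * x₁ ∈ N := by
      have := hNn.conj_mem c hc x₁⁻¹
      rwa [inv_inv] at this
    refine ⟨x₁⁻¹ * c * x₁ * u, N.mul_mem h3 hu, ?_, ?_⟩
    · rw [pow_succ, h1, pow_succ]
      group
    · rw [rr_mul hx₁ hN h3 hu, pow_succ, ← h2]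
      congr 1
      have := rr_conj hx₁ hN hcyc hc x₁⁻¹
      rwa [inv_inv] at this

end alg

section top

variable {F : Type} [Field F] {G : Type*} [Group G] [TopologicalSpace G] [IsTopologicalGroup G]
  [TopologicalSpace F] [IsTopologicalRing F] [T1Space F] [ContinuousInv₀ F]

omit [IsTopologicalGroup G] [TopologicalSpace G] [TopologicalSpace F] [IsTopologicalRing F]
  [T1Space F] [ContinuousInv₀ F] in
theorem hom_ne (c : G →* F) (a : G) : c a ≠ 0 := by
  intro h
  have h1 : c (a * a⁻¹) = 0 := by rw [map_mul, h, zero_mul]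
  rw [mul_inv_cancel, map_one] at h1
  exact one_ne_zero h1

theorem isOpen_good {T : G → F} {x₁ : G} (hx₁ : T x₁ ≠ 0) (hT : Continuous T) {c : G →* F}
    (hc : Continuous c) (w : ℤ) {f : ℕ} (hf : f ≠ 0) {N : Subgroup G} (hNo : IsOpen (N : Set G))
    (h : ∀ u ∈ N, (rr T x₁ u ^ 2) ^ f = (c u ^ w) ^ f) (V : Subgroup G)
    (hV : ∀ u ∈ N, rr T x₁ u ^ 2 = c u ^ w → u ∈ V) : IsOpen (V : Set G) := by
  classical
  have hcw : ∀ u, c u ^ w ≠ 0 := fun u => zpow_ne_zero _ (hom_ne c u)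
  set φ : G → F := fun u => rr T x₁ u ^ 2 * (c u ^ w)⁻¹ with hφ
  have hφc : Continuous φ := by
    refine Continuous.mul (Continuous.pow ?_ 2) ?_
    · unfold rr
      exact (hT.comp (continuous_const.mul continuous_id)).div_const _
    · exact (hc.zpow₀ w fun x => Or.inl (hom_ne c x)).inv₀ hcw
  have hφ1 : φ 1 = 1 := by
    simp only [φ]
    rw [rr_one hx₁, map_one, one_zpow, one_pow, inv_one, mul_one]
  set Z : Set F := {z | z ^ f = 1} \ {1} with hZ
  have hZf : Z.Finite := by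
    refine Set.Finite.subset (s := {z : F | z ^ f = 1}) ?_ Set.diff_subset
    have h2 : {x : F | x ^ f = 1} ⊆ ((Polynomial.X ^ f - Polynomial.C 1 : Polynomial F).roots.toFinset : Set F) := by
      intro x hx
      rw [Finset.mem_coe, Multiset.mem_toFinset, Polynomial.mem_roots
        (Polynomial.X_pow_sub_C_ne_zero (Nat.pos_of_ne_zero hf) 1)]
      simp only [Polynomial.IsRoot.def, Polynomial.eval_sub, Polynomial.eval_pow,
        Polynomial.eval_X, Polynomial.eval_C]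
      exact sub_eq_zero.2 hx
    exact (Finset.finite_toSet _).subset h2
  have hO : IsOpen (φ ⁻¹' Zᶜ) := hZf.isClosed.isOpen_compl.preimage hφc
  apply Subgroup.isOpen_of_mem_nhds V (g := 1)
  refine Filter.mem_of_superset (((hO.inter hNo)).mem_nhds ⟨?_, N.one_mem⟩) ?_
  · rw [Set.mem_preimage, hφ1]
    intro h1
    exact h1.2 rfl
  · rintro u ⟨hu1, hu2⟩
    refine hV u hu2 ?_
    have h1 : φ u ^ f = 1 := by
      simp only [φ]
      rw [mul_pow, h u hu2, inv_pow, mul_inv_cancel₀ (pow_ne_zero _ (hcw u))]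
    have h2 : φ u = 1 := by
      by_contra hne
      exact hu1 ⟨h1, hne⟩
    simp only [φ] at h2
    exact (mul_inv_eq_one₀ (hcw u)).1 h2

/-- open subgroups of compact groups contain open normal subgroups -/
theorem isOpen_core [CompactSpace G] {W : Subgroup G} (hW : IsOpen (W : Set G)) :
    IsOpen (W.normalCore : Set G) ∧ W.normalCore.index ≠ 0 := by
  have hWfin : Finite (G ⧸ W) := Subgroup.quotient_finite_of_isOpen _ hW
  have hWfi : W.FiniteIndex := Subgroup.finiteIndex_of_finite_quotient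
  exact ⟨Subgroup.isOpen_of_isClosed_of_finiteIndex _
    (W.normalCore_isClosed (W.isClosed_of_isOpen hW)), Subgroup.FiniteIndex.index_ne_zero⟩

end top

end Pool.Agent.J6H95.ST
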