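import Pool.Agent.J6H29.ST.Stm
import Pool.Agent.J6H95.ST.OddA

/-!
# ST-ODD: the case of odd weight
-/

set_option autoImplicit false
set_option maxHeartbeats 400000

namespace Pool.Agent.J6H95.ST

open NumberField Filter Topology IsDedekindDomain Pool.Agent.W401.Cheb Pool.Agent.R401.Sup
open Pool.Agent.R401.Img Pool.Agent.R401.Eng Pool.Agent.R401.Sup2
open Pool.Agent.R401.Sup3 Pool.Agent.R401.Tr1

section frob

variable {K : Type} [Field K] [NumberField K]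

theorem conj_frob {v : HeightOneSpectrum (𝓞 K)} {σ : GK K} (hv : IsFrob v σ) (x : GK K) :
    IsFrob v (x * σ * x⁻¹) := by
  obtain ⟨Q, hQ, hQv, hσ⟩ := hv
  refine ⟨Q.comap (MulSemiringAction.toRingHom (GK K) (𝓞 (AlgebraicClosure K)) x⁻¹), ?_, ?_,
    fun y => ?_⟩
  · have : Function.Surjective
        (MulSemiringAction.toRingHom (GK K) (𝓞 (AlgebraicClosure K)) x⁻¹) := by
      intro y
      exact ⟨x • y, by rw [MulSemiringAction.toRingHom_apply, inv_smul_smul]⟩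
    exact Ideal.comap_isMaximal_of_surjective _ this
  · rw [← hQv]
    ext y
    rw [Ideal.mem_comap, Ideal.mem_comap, Ideal.mem_comap, MulSemiringAction.toRingHom_apply,
      smul_algebraMap]
  · rw [Ideal.mem_comap, MulSemiringAction.toRingHom_apply, smul_sub, smul_pow', smul_smul]
    have h2 : x⁻¹ * (x * σ * x⁻¹) = σ * x⁻¹ := by group
    rw [h2, mul_smul]
    exact hσ (x⁻¹ • y)

/-- every coset of an open normal subgroup contains Frobenius elements outside a set of places of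
density zero -/
theorem exists_frob' (U : Subgroup (GK K)) [hU : U.Normal] (hUo : IsOpen (U : Set (GK K)))
    (g : GK K) {P : HeightOneSpectrum (𝓞 K) → Prop} (hP : Tendsto (dens P) atTop (𝓝 0)) :
    ∃ v, ¬ P v ∧ ∃ γ : GK K, IsFrob v γ ∧ g⁻¹ * γ ∈ U := by
  classical
  set C : Set (GK K) := {σ | ∃ x : GK K, g⁻¹ * (x * σ * x⁻¹) ∈ U} with hC
  have hC1 : ∀ σ ∈ C, ∀ τ : GK K, τ * σ * τ⁻¹ ∈ C := by
    rintro σ ⟨x, hx⟩ τ
    refine ⟨x * τ⁻¹, ?_⟩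
    have h1 : x * τ⁻¹ * (τ * σ * τ⁻¹) * (x * τ⁻¹)⁻¹ = x * σ * x⁻¹ := by group
    rwa [h1]
  have hC2 : ∀ σ ∈ C, ∀ u ∈ U, σ * u ∈ C := by
    rintro σ ⟨x, hx⟩ u hu
    refine ⟨x, ?_⟩
    have h1 : g⁻¹ * (x * (σ * u) * x⁻¹) = g⁻¹ * (x * σ * x⁻¹) * (x * u * x⁻¹) := by group
    rw [h1]
    exact U.mul_mem hx (hU.conj_mem u hu x)
  have hcheb := Pool.Agent.Y142.chebK K U hUo C hC1 hC2
  have hfin : Finite (GK K ⧸ U) := Subgroup.quotient_finite_of_isOpen _ hUo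
  have hpos : (0 : ℝ) < (((QuotientGroup.mk : GK K → GK K ⧸ U) '' C).ncard : ℝ) /
      (Nat.card (GK K ⧸ U) : ℝ) := by
    apply div_pos
    · have h1 : ((QuotientGroup.mk : GK K → GK K ⧸ U) '' C).Nonempty :=
        ⟨_, g, ⟨1, by simp [U.one_mem]⟩, rfl⟩
      exact_mod_cast (Set.ncard_pos (Set.toFinite _)).2 h1
    · exact_mod_cast Nat.card_pos
  by_contra hcon
  push Not at hcon
  have h0 : Tendsto (dens fun v : HeightOneSpectrum (𝓞 K) => ∃ σ ∈ C, IsFrob v σ) atTop (𝓝 0) := by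
    refine squeeze_zero (fun N => ?_) (fun N => ?_) hP
    · unfold dens
      positivity
    · refine dens_le ?_ N
      rintro v ⟨σ, ⟨x, hx⟩, hv⟩
      by_contra hvS
      exact hcon v hvS _ (conj_frob hv x) hx
  exact absurd (tendsto_nhds_unique hcheb h0) hpos.ne'

end frob

open Pool.Agent.J6H29.ST in
theorem main : S_Odd := by
  intro K _ _ ℓ _ T hTc hcyc x₁ hx₁ w hw H hHo hH S hS M e hfrob
  classical
  obtain ⟨c, hc⟩ : ∃ c : GK K →* ℚ_[ℓ], c = cyc K ℓ ℚ_[ℓ] := ⟨_, rfl⟩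
  have hcc : Continuous c := by
    rw [hc]
    exact continuous_cyc K ℓ ℚ_[ℓ]
  have hcfrob : ∀ v : HeightOneSpectrum (𝓞 K), (ℓ : 𝓞 K) ∉ v.asIdeal → ∀ g, IsFrob v g →
      c g = (Ideal.absNorm v.asIdeal : ℚ_[ℓ]) := by
    intro v hv g hg
    rw [hc]
    exact cyc_frob ℓ ℚ_[ℓ] hv hg
  have hcw : ∀ u, c u ^ w ≠ 0 := fun u => zpow_ne_zero _ (hom_ne c u)
  -- the bad places
  obtain ⟨S', hS'd⟩ : ∃ S' : Set (HeightOneSpectrum (𝓞 K)),
      S' = S ∪ {v | (ℓ : 𝓞 K) ∈ v.asIdeal} := ⟨_, rfl⟩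
  have hS' : S'.Finite := by
    rw [hS'd]
    exact hS.union (Pool.Agent.W352.ChAbs.over_le ℓ (Fact.out : ℓ.Prime)).1
  have hS's : ∀ v, v ∉ S' → v ∉ S ∧ (ℓ : 𝓞 K) ∉ v.asIdeal := by
    intro v hv
    rw [hS'd, Set.mem_union, not_or] at hv
    exact hv
  have hS'0 : Tendsto (dens fun v : HeightOneSpectrum (𝓞 K) => v ∈ S') atTop (𝓝 0) :=
    dens_fin (fun v : HeightOneSpectrum (𝓞 K) => v ∈ S') hS'
  -- the normal core
  obtain ⟨N, hNn, hNo, hNi, hN⟩ : ∃ N : Subgroup (GK K), N.Normal ∧ IsOpen (N : Set (GK K)) ∧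
      N.index ≠ 0 ∧ ∀ u ∈ N, ∃ r : ℚ_[ℓ], ∀ x, T (x * u) = r * T x :=
    ⟨H.normalCore, inferInstance, (isOpen_core hHo).1, (isOpen_core hHo).2,
      fun u hu => hH u (H.normalCore_le hu)⟩
  obtain ⟨f, hf⟩ : ∃ f : ℕ, f = N.index := ⟨_, rfl⟩
  have hf0 : f ≠ 0 := by rwa [hf]
  have hpow : ∀ g : GK K, g ^ f ∈ N := by
    intro g
    rw [hf]
    exact N.pow_index_mem g
  obtain ⟨r, hr⟩ : ∃ r : GK K → ℚ_[ℓ], r = rr T x₁ := ⟨_, rfl⟩
  have hT0 : ∀ g, x₁⁻¹ * g ∈ N → T g ≠ 0 := by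
    intro g hg
    have h1 := rr_spec hx₁ hN hg x₁
    rw [mul_inv_cancel_left] at h1
    rw [h1]
    exact mul_ne_zero (rr_ne hx₁ hN hg) hx₁
  -- Frobenius elements
  have hA : ∀ v, v ∉ S' → ∀ g, IsFrob v g → x₁⁻¹ * g ∈ N →
      r (g ^ f) ^ 2 = c (g ^ f) ^ w := by
    intro v hv g hg hgN
    obtain ⟨hvS, hvℓ⟩ := hS's v hv
    obtain ⟨hrat, hbd⟩ := hfrob v hvS g hg
    obtain ⟨a, ha⟩ := hrat 1
    rw [pow_one] at ha
    obtain ⟨b, hb⟩ := hrat (1 + f)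
    have ha0 : a ≠ 0 := by
      rintro rfl
      exact hT0 g hgN (by rw [ha, Rat.cast_zero])
    have hz : ∀ j : ℤ, T (g ^ (1 + (f : ℤ) * j)) = r (g ^ f) ^ j * T g := by
      intro j
      have h1 : g ^ (1 + (f : ℤ) * j) = g * (g ^ f) ^ j := by
        rw [zpow_add, zpow_one, zpow_mul, zpow_natCast]
      rw [h1, rr_spec hx₁ hN (N.zpow_mem (hpow g) j), rr_zpow hx₁ hN (hpow g), hr]
    obtain ⟨s, hs⟩ : ∃ s : ℚ, r (g ^ f) = (s : ℚ_[ℓ]) := by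
      refine ⟨b / a, ?_⟩
      have h1 := hz 1
      have h2 : g ^ (1 + (f : ℤ) * 1) = g ^ (1 + f) := by
        rw [mul_one, ← Nat.cast_one, ← Nat.cast_add, zpow_natCast]
      rw [h2, hb, zpow_one, ha] at h1
      have ha' : (a : ℚ_[ℓ]) ≠ 0 := by exact_mod_cast ha0
      push_cast
      rw [h1, mul_div_cancel_right₀ _ ha']
    have hs0 : s ≠ 0 := by
      rintro rfl
      have h1 : r (g ^ f) ≠ 0 := by
        rw [hr]
        exact rr_ne hx₁ hN (hpow g)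
      exact h1 (by rw [hs, Rat.cast_zero])
    obtain ⟨q, hq⟩ : ∃ q : ℕ, q = Ideal.absNorm v.asIdeal := ⟨_, rfl⟩
    have hq0 : q ≠ 0 := by
      rw [hq]
      intro h0
      exact v.ne_bot (Ideal.absNorm_eq_zero_iff.1 h0)
    have hqR : (0 : ℝ) < (q : ℝ) ^ w := zpow_pos (by exact_mod_cast Nat.pos_of_ne_zero hq0) w
    have haR : (0 : ℝ) < (a : ℝ) ^ 2 := by
      have : (a : ℝ) ≠ 0 := by exact_mod_cast ha0
      positivity
    have hsR : (0 : ℝ) < (s : ℝ) ^ 2 := by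
      have : (s : ℝ) ≠ 0 := by exact_mod_cast hs0
      positivity
    have hX : (s : ℝ) ^ 2 / ((q : ℝ) ^ w) ^ f = 1 := by
      refine one_of_bdd (C := M * (q : ℝ) ^ w / (a : ℝ) ^ 2)
        (div_pos hsR (pow_pos hqR f)) fun j => ?_
      have h1 := hbd (1 + (f : ℤ) * j)
      rw [hz, hs, ha, map_mul, map_zpow₀, map_ratCast, map_ratCast, ← hq] at h1
      have h2 : ‖((s : ℂ)) ^ j * (a : ℂ)‖ ^ 2 = ((s : ℝ) ^ 2) ^ j * (a : ℝ) ^ 2 := by
        rw [norm_mul, norm_zpow]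
        have e1 : ‖(s : ℂ)‖ = |(s : ℝ)| := Complex.norm_ratCast s
        have e2 : ‖(a : ℂ)‖ = |(a : ℝ)| := Complex.norm_ratCast a
        rw [e1, e2, mul_pow, ← sq_abs (a : ℝ), ← sq_abs (s : ℝ)]
        congr 1
        rw [← zpow_natCast, ← zpow_natCast, ← zpow_mul, ← zpow_mul, mul_comm]
      rw [h2, zpow_add₀ hqR.ne', zpow_one] at h1
      have h3 : ((q : ℝ) ^ w) ^ ((f : ℤ) * j) = (((q : ℝ) ^ w) ^ f) ^ j := by
        rw [zpow_mul, zpow_natCast]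
      rw [h3] at h1
      rw [div_zpow, le_div_iff₀ haR, div_mul_eq_mul_div, div_le_iff₀ (zpow_pos (pow_pos hqR f) j)]
      linarith [h1]
    have hsq : s ^ 2 = ((q : ℚ) ^ w) ^ f := by
      have h1 : (s : ℝ) ^ 2 = ((q : ℝ) ^ w) ^ f := by
        rwa [div_eq_one_iff_eq (pow_pos hqR f).ne'] at hX
      apply Rat.cast_injective (α := ℝ)
      push_cast
      exact h1
    have h4 : c (g ^ f) ^ w = (((q : ℚ) ^ w) ^ f : ℚ) := by
      rw [map_pow, hcfrob v hvℓ g hg, ← hq]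
      push_cast
      rw [← zpow_natCast, ← zpow_natCast, ← zpow_mul, ← zpow_mul, mul_comm]
    rw [hs, h4, ← hsq]
    push_cast
    rfl
  -- all elements of the coset
  have hB : ∀ g, x₁⁻¹ * g ∈ N → r (g ^ f) ^ 2 = c (g ^ f) ^ w := by
    intro g hgN
    by_contra hne
    obtain ⟨O, hO⟩ : ∃ O : Set (GK K), O = {g | T (g * g ^ f) ^ 2 ≠ c (g ^ f) ^ w * T g ^ 2} :=
      ⟨_, rfl⟩
    have hOo : IsOpen O := by
      rw [hO]
      refine isOpen_ne_fun ?_ ?_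
      · exact (hTc.comp (continuous_id.mul (continuous_pow f))).pow 2
      · exact ((hcc.comp (continuous_pow f)).zpow₀ w fun x => Or.inl (hom_ne c _)).mul (hTc.pow 2)
    have key : ∀ g, x₁⁻¹ * g ∈ N → (g ∈ O ↔ r (g ^ f) ^ 2 ≠ c (g ^ f) ^ w) := by
      intro g hgN
      rw [hO, Set.mem_ofPred_eq, rr_spec hx₁ hN (hpow g), mul_pow, ← hr, not_iff_not]
      constructor
      · intro h1
        exact mul_right_cancel₀ (pow_ne_zero 2 (hT0 g hgN)) h1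
      · intro h1
        rw [h1]
    have hgO : g ∈ O := (key g hgN).2 hne
    have h1 : (fun u => g * u) ⁻¹' O ∈ 𝓝 (1 : GK K) := by
      apply (hOo.preimage (continuous_const.mul continuous_id)).mem_nhds
      simpa using hgO
    obtain ⟨s, hs1, hs2, hs3⟩ := mem_nhds_iff.1 h1
    obtain ⟨U, hU⟩ := ProfiniteGrp.exist_openNormalSubgroup_sub_open_nhds_of_one hs2 hs3
    have hUn : (U : Subgroup (GK K)).Normal := U.isNormal'
    obtain ⟨v, hv, γ, hγ, hγU⟩ := exists_frob' ((U : Subgroup (GK K)) ⊓ N)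
      (IsOpen.inter U.isOpen' hNo) g hS'0
    have h2 : γ ∈ O := by
      have h3 := hs1 (hU hγU.1)
      rw [Set.mem_preimage, mul_inv_cancel_left] at h3
      exact h3
    have h4 : x₁⁻¹ * γ ∈ N := by
      have h5 := N.mul_mem hgN hγU.2
      have h6 : x₁⁻¹ * g * (g⁻¹ * γ) = x₁⁻¹ * γ := by group
      rwa [h6] at h5
    exact (key γ h4).1 h2 (hA v hv γ hγ h4)
  -- the elements of `N`
  have hC : ∀ u ∈ N, (r u ^ 2) ^ f = (c u ^ w) ^ f := by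
    intro u hu
    have h1 := hB (x₁ * u) (by rwa [inv_mul_cancel_left])
    have h2 := hB x₁ (by rw [inv_mul_cancel]; exact N.one_mem)
    obtain ⟨y, hy, h3, h4⟩ := rr_prod hx₁ hN hcyc hu f
    have h5 : r ((x₁ * u) ^ f) = r (x₁ ^ f) * r u ^ f := by
      rw [h3, hr, rr_mul hx₁ hN (hpow x₁) hy, h4]
    have h6 : c ((x₁ * u) ^ f) ^ w = c (x₁ ^ f) ^ w * (c u ^ w) ^ f := by
      rw [map_pow, map_mul, mul_pow, mul_zpow, map_pow]
      congr 1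
      rw [← zpow_natCast, ← zpow_natCast, ← zpow_mul, ← zpow_mul, mul_comm]
    rw [h5, h6, mul_pow, h2] at h1
    have h7 := mul_left_cancel₀ (hcw _) h1
    rw [← h7]
    ring
  -- the open normal subgroup
  obtain ⟨V, hV⟩ : ∃ V : Subgroup (GK K), V = N ⊓ NN T c w := ⟨_, rfl⟩
  have hVo : IsOpen (V : Set (GK K)) := by
    refine isOpen_good hx₁ hTc hcc w hf0 hNo (fun u hu => ?_) V fun u hu h => ?_
    · rw [← hr]
      exact hC u hu
    · rw [hV]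
      exact ⟨hu, rr T x₁ u, fun g => rr_spec hx₁ hN hu g, h⟩
  obtain ⟨N₀, hN₀n, hN₀o, hN₀⟩ : ∃ N₀ : Subgroup (GK K), N₀.Normal ∧
      IsOpen (N₀ : Set (GK K)) ∧ ∀ u ∈ N₀, ∃ s : ℚ_[ℓ], (∀ g, T (g * u) = s * T g) ∧
        s ^ 2 = c u ^ w := by
    refine ⟨V.normalCore, inferInstance, (isOpen_core hVo).1, fun u hu => ?_⟩
    have h1 := V.normalCore_le hu
    rw [hV] at h1
    exact h1.2
  have hy : ∀ g, x₁⁻¹ * g ∈ N₀ → T g ^ 2 = c g ^ w * (T x₁ ^ 2 / c x₁ ^ w) := by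
    intro g hg
    obtain ⟨s, hs1, hs2⟩ := hN₀ _ hg
    have h1 := hs1 x₁
    rw [mul_inv_cancel_left] at h1
    have h2 : c g = c x₁ * c (x₁⁻¹ * g) := by rw [← map_mul, mul_inv_cancel_left]
    rw [h1, mul_pow, hs2, h2, mul_zpow]
    field_simp [hcw x₁]
  -- rationality of the constant
  obtain ⟨v₁, hv₁, γ₁, hγ₁, hγ₁N⟩ := exists_frob' N₀ hN₀o x₁ hS'0
  obtain ⟨hv₁S, hv₁ℓ⟩ := hS's v₁ hv₁
  obtain ⟨a₁, ha₁⟩ := (hfrob v₁ hv₁S γ₁ hγ₁).1 1
  rw [pow_one] at ha₁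
  obtain ⟨y₀, hy₀⟩ : ∃ y₀ : ℚ, T x₁ ^ 2 / c x₁ ^ w = (y₀ : ℚ_[ℓ]) := by
    refine ⟨a₁ ^ 2 / (Ideal.absNorm v₁.asIdeal : ℚ) ^ w, ?_⟩
    have h1 := hy γ₁ hγ₁N
    rw [ha₁, hcfrob v₁ hv₁ℓ γ₁ hγ₁] at h1
    have h2 : ((Ideal.absNorm v₁.asIdeal : ℚ_[ℓ])) ^ w ≠ 0 := by
      refine zpow_ne_zero _ ?_
      have : Ideal.absNorm v₁.asIdeal ≠ 0 := fun h0 => v₁.ne_bot (Ideal.absNorm_eq_zero_iff.1 h0)
      exact_mod_cast this
    push_cast
    rw [h1, mul_div_cancel_left₀ _ h2]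
  have hy₀0 : y₀ ≠ 0 := by
    rintro rfl
    rw [Rat.cast_zero] at hy₀
    exact div_ne_zero (pow_ne_zero 2 hx₁) (hcw x₁) hy₀
  -- the contradiction
  have hP : Tendsto (dens fun v : HeightOneSpectrum (𝓞 K) =>
      v ∈ S' ∨ ∃ x : ℚ, x ^ 2 = (Ideal.absNorm v.asIdeal : ℚ) ^ w * y₀) atTop (𝓝 0) := by
    have h1 := hS'0.add (dens_odd (K := K) ℚ hy₀0 hw)
    rw [add_zero] at h1
    refine squeeze_zero (fun n => ?_) (fun n => card_or _ _ n) h1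
    unfold dens
    positivity
  obtain ⟨v, hv, γ, hγ, hγN⟩ := exists_frob' N₀ hN₀o x₁ hP
  rw [not_or] at hv
  obtain ⟨hvS, hvℓ⟩ := hS's v hv.1
  obtain ⟨a, ha⟩ := (hfrob v hvS γ hγ).1 1
  rw [pow_one] at ha
  refine hv.2 ⟨a, ?_⟩
  have h1 := hy γ hγN
  rw [ha, hcfrob v hvℓ γ hγ, hy₀] at h1
  apply Rat.cast_injective (α := ℚ_[ℓ])
  push_cast
  exact h1

end Pool.Agent.J6H95.ST
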